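import Mathlib

/-!
# Eight points in space can be separated by three planes

For every set `P` of eight points of `ℝ³` no four of which lie on a common plane there are three
planes none of which contains a point of `P` such that each of the eight sign patterns (each of the
eight compartments) contains exactly one point of `P`.
-/

set_option autoImplicit false

open Finset Filter Topology

namespace Pool.Agent.Results.MP_a0a64f_co.ThreePlanes

/-- General position for a family of eight points: no plane contains four of them. -/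
def GP (P : Fin 8 → Fin 3 → ℝ) : Prop :=
  ∀ (n : Fin 3 → ℝ) (c : ℝ), n ≠ 0 → (univ.filter fun i => n ⬝ᵥ P i = c).card ≤ 3

/-- The set `S` of indices is cut off strictly by a plane. -/
def Cut (P : Fin 8 → Fin 3 → ℝ) (S : Finset (Fin 8)) : Prop :=
  ∃ (n : Fin 3 → ℝ) (c : ℝ), n ≠ 0 ∧ ∀ i, (i ∈ S → c < n ⬝ᵥ P i) ∧ (i ∉ S → n ⬝ᵥ P i < c)

/-- Interpolation by affine functions on four of the points. -/
lemma interpolate {P : Fin 8 → Fin 3 → ℝ} (hP : GP P) (J : Finset (Fin 8)) (hJ : J.card = 4)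
    (y : Fin 8 → ℝ) : ∃ (m : Fin 3 → ℝ) (d : ℝ), ∀ i ∈ J, m ⬝ᵥ P i - d = y i := by
  let Φ : ((Fin 3 → ℝ) × ℝ) →ₗ[ℝ] (J → ℝ) :=
    { toFun := fun p i => p.1 ⬝ᵥ P i - p.2
      map_add' := by
        intro p q; ext i
        simp only [Prod.fst_add, Prod.snd_add, add_dotProduct, Pi.add_apply]
        ring
      map_smul' := by
        intro r p; ext i
        simp only [Prod.smul_fst, Prod.smul_snd, smul_dotProduct, Pi.smul_apply, smul_eq_mul,
          RingHom.id_apply]
        ring }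
  have hinj : Function.Injective Φ := by
    rw [← LinearMap.ker_eq_bot, LinearMap.ker_eq_bot']
    rintro ⟨n, c⟩ h
    have h1 : ∀ i ∈ J, n ⬝ᵥ P i = c := by
      intro i hi
      have := congrFun h ⟨i, hi⟩
      simp only [Φ, LinearMap.coe_mk, AddHom.coe_mk, Pi.zero_apply] at this
      linarith
    by_cases hn : n = 0
    · obtain ⟨i, hi⟩ : J.Nonempty := by
        rw [← Finset.card_pos]; omega
      have := h1 i hi
      rw [hn, zero_dotProduct] at this
      rw [hn, ← this]; rfl
    · exfalso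
      have h2 := hP n c hn
      have h3 : J ⊆ univ.filter fun i => n ⬝ᵥ P i = c := by
        intro i hi
        rw [mem_filter]
        exact ⟨mem_univ i, h1 i hi⟩
      have := card_le_card h3
      omega
  have hfin : Module.finrank ℝ ((Fin 3 → ℝ) × ℝ) = Module.finrank ℝ (J → ℝ) := by
    rw [Module.finrank_prod, Module.finrank_fin_fun, Module.finrank_self,
      Module.finrank_fintype_fun_eq_card, Fintype.card_coe, hJ]
  have hsurj := (LinearMap.injective_iff_surjective_of_finrank_eq_finrank hfin).1 hinj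
  obtain ⟨⟨m, d⟩, hmd⟩ := hsurj fun i => y i
  refine ⟨m, d, fun i hi => ?_⟩
  have := congrFun hmd ⟨i, hi⟩
  simpa [Φ] using this

/-- A plane may be moved so that the points on it go to prescribed sides. -/
lemma perturb {P : Fin 8 → Fin 3 → ℝ} (hP : GP P) {n : Fin 3 → ℝ} {c : ℝ} (hn : n ≠ 0)
    {S : Finset (Fin 8)} (h1 : ∀ i, c < n ⬝ᵥ P i → i ∈ S) (h2 : ∀ i, i ∈ S → c ≤ n ⬝ᵥ P i) :
    Cut P S := by
  classical
  have hZ := hP n c hn
  obtain ⟨J, hJ1, -, hJ⟩ : ∃ J : Finset (Fin 8), (univ.filter fun i => n ⬝ᵥ P i = c) ⊆ J ∧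
      J ⊆ univ ∧ J.card = 4 :=
    Finset.exists_subsuperset_card_eq (Finset.subset_univ _) (by omega) (by simp)
  obtain ⟨m, d, hmd⟩ := interpolate hP J hJ fun i => if i ∈ S then 1 else -1
  have hlim : ∀ (a b : ℝ), Tendsto (fun ε : ℝ => a + ε * b) (𝓝[>] 0) (𝓝 a) := by
    intro a b
    have h : Tendsto (fun ε : ℝ => a + ε * b) (𝓝 0) (𝓝 (a + 0 * b)) :=
      (by fun_prop : Continuous fun ε : ℝ => a + ε * b).tendsto 0
    rw [zero_mul, add_zero] at h
    exact h.mono_left nhdsWithin_le_nhds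
  have hall : ∀ i, ∀ᶠ ε in 𝓝[>] (0 : ℝ),
      (i ∈ S → 0 < (n ⬝ᵥ P i - c) + ε * (m ⬝ᵥ P i - d)) ∧
      (i ∉ S → (n ⬝ᵥ P i - c) + ε * (m ⬝ᵥ P i - d) < 0) := by
    intro i
    by_cases hz : n ⬝ᵥ P i = c
    · have hiJ : i ∈ J := hJ1 (by simp [hz])
      have hval := hmd i hiJ
      filter_upwards [self_mem_nhdsWithin] with ε hε
      have hε' : 0 < ε := hε
      rw [hz, sub_self, zero_add, hval]
      constructor
      · intro hi
        simp [hi, hε']
      · intro hi
        simp [hi, hε']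
    · by_cases hi : i ∈ S
      · have h3 : 0 < n ⬝ᵥ P i - c := by
          have := h2 i hi
          rcases lt_or_eq_of_le this with h | h
          · linarith
          · exact absurd h.symm hz
        filter_upwards [(hlim (n ⬝ᵥ P i - c) (m ⬝ᵥ P i - d)).eventually_const_lt h3] with ε hε
        exact ⟨fun _ => hε, fun h => absurd hi h⟩
      · have h3 : n ⬝ᵥ P i - c < 0 := by
          by_contra hcon
          push Not at hcon
          rcases lt_or_eq_of_le hcon with h | h
          · exact hi (h1 i (by linarith))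
          · exact hz (by linarith)
        filter_upwards [(hlim (n ⬝ᵥ P i - c) (m ⬝ᵥ P i - d)).eventually_lt_const h3] with ε hε
        exact ⟨fun h => absurd h hi, fun _ => hε⟩
  have hne : ∀ᶠ ε in 𝓝[>] (0 : ℝ), n + ε • m ≠ 0 := by
    have h : Tendsto (fun ε : ℝ => n + ε • m) (𝓝 0) (𝓝 (n + (0 : ℝ) • m)) :=
      (by fun_prop : Continuous fun ε : ℝ => n + ε • m).tendsto 0
    rw [zero_smul, add_zero] at h
    exact (h.mono_left nhdsWithin_le_nhds).eventually_ne hn
  obtain ⟨ε, hε1, hε2⟩ := ((eventually_all.2 hall).and hne).exists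
  refine ⟨n + ε • m, c + ε * d, hε2, fun i => ?_⟩
  have hv : (n + ε • m) ⬝ᵥ P i - (c + ε * d) = (n ⬝ᵥ P i - c) + ε * (m ⬝ᵥ P i - d) := by
    rw [add_dotProduct, smul_dotProduct, smul_eq_mul]; ring
  obtain ⟨g1, g2⟩ := hε1 i
  constructor
  · intro hi
    have := g1 hi
    linarith
  · intro hi
    have := g2 hi
    linarith

/-- Four numbers and the mean of the two middle ones. -/
lemma mid_gt {ι : Type*} [DecidableEq ι] {X : Finset ι} (hX : X.card = 4) {v : ι → ℝ} {M μ c : ℝ}
    (hM : ∃ i ∈ X, v i = M) (hM' : ∀ i ∈ X, v i ≤ M) (hμ : ∃ i ∈ X, v i = μ)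
    (hμ' : ∀ i ∈ X, μ ≤ v i) (hc : 2 * c = ∑ i ∈ X, v i - M - μ) :
    (X.filter fun i => c < v i).card ≤ 2 := by
  by_contra hcon
  push Not at hcon
  obtain ⟨i, hi, hiM⟩ := hM
  obtain ⟨j, hj, hjμ⟩ := hμ
  by_cases hij : i = j
  · -- all equal
    have hall : ∀ k ∈ X, v k = M := by
      intro k hk
      have a1 := hM' k hk
      have a2 := hμ' k hk
      rw [← hjμ, ← hij, hiM] at a2
      linarith
    have hs : ∑ k ∈ X, v k = 4 * M := by
      rw [Finset.sum_congr rfl hall, Finset.sum_const, hX]; norm_num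
    have hμM : μ = M := by rw [← hjμ, ← hij, hiM]
    have hcM : c = M := by rw [hs, hμM] at hc; linarith
    have : X.filter (fun i => c < v i) = ∅ := by
      rw [Finset.filter_eq_empty_iff]
      intro k hk
      rw [hall k hk, hcM]; exact lt_irrefl _
    rw [this] at hcon
    simp at hcon
  · set T := X.filter fun i => c < v i with hT
    have hTX : (X \ T).card ≤ 1 := by
      have h := Finset.card_sdiff_add_card_eq_card (Finset.filter_subset (fun i => c < v i) X)
      rw [← hT] at h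
      omega
    set Y := (X.erase i).erase j with hY
    have hjX : j ∈ X.erase i := Finset.mem_erase.2 ⟨fun h => hij h.symm, hj⟩
    have hYcard : Y.card = 2 := by
      rw [hY, Finset.card_erase_of_mem hjX, Finset.card_erase_of_mem hi, hX]
    have hsum : ∑ k ∈ Y, v k = 2 * c := by
      have a1 := Finset.add_sum_erase X v hi
      have a2 := Finset.add_sum_erase (X.erase i) v hjX
      rw [hiM] at a1
      rw [hjμ] at a2
      rw [hY]
      linarith
    have hYX : Y ⊆ X := (Finset.erase_subset _ _).trans (Finset.erase_subset _ _)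
    by_cases hYT : Y ⊆ T
    · have hlt : ∑ k ∈ Y, c < ∑ k ∈ Y, v k := by
        refine Finset.sum_lt_sum_of_nonempty ?_ ?_
        · rw [← Finset.card_pos]; omega
        · intro k hk
          exact (Finset.mem_filter.1 (hYT hk)).2
      rw [Finset.sum_const, hYcard, hsum, nsmul_eq_mul] at hlt
      push_cast at hlt
      linarith
    · obtain ⟨p, hpY, hpT⟩ := Finset.not_subset.1 hYT
      have hpX := hYX hpY
      have hpj : p ≠ j := (Finset.mem_erase.1 hpY).1
      have hjT : j ∈ T := by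
        by_contra hjT
        have : ({p, j} : Finset ι) ⊆ X \ T := by
          intro k hk
          rw [Finset.mem_insert, Finset.mem_singleton] at hk
          rcases hk with rfl | rfl
          · exact Finset.mem_sdiff.2 ⟨hpX, hpT⟩
          · exact Finset.mem_sdiff.2 ⟨hj, hjT⟩
        have h5 := Finset.card_le_card this
        rw [Finset.card_pair hpj] at h5
        omega
      have h6 := (Finset.mem_filter.1 hjT).2
      have h7 := hμ' p hpX
      apply hpT
      rw [hT, Finset.mem_filter]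
      exact ⟨hpX, by rw [hjμ] at h6; linarith⟩

lemma mid_lt {ι : Type*} [DecidableEq ι] {X : Finset ι} (hX : X.card = 4) {v : ι → ℝ} {M μ c : ℝ}
    (hM : ∃ i ∈ X, v i = M) (hM' : ∀ i ∈ X, v i ≤ M) (hμ : ∃ i ∈ X, v i = μ)
    (hμ' : ∀ i ∈ X, μ ≤ v i) (hc : 2 * c = ∑ i ∈ X, v i - M - μ) :
    (X.filter fun i => v i < c).card ≤ 2 := by
  have h := mid_gt (v := fun i => -v i) (M := -μ) (μ := -M) (c := -c) hX
    (by obtain ⟨i, hi, h⟩ := hμ; exact ⟨i, hi, by rw [h]⟩)
    (fun i hi => neg_le_neg (hμ' i hi))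
    (by obtain ⟨i, hi, h⟩ := hM; exact ⟨i, hi, by rw [h]⟩)
    (fun i hi => neg_le_neg (hM' i hi))
    (by rw [Finset.sum_neg_distrib]; linarith)
  simpa using h

/-- A common weak halving plane parallel to a given direction. -/
lemma weak {P : Fin 8 → Fin 3 → ℝ} {A B : Finset (Fin 8)} (hA : A.card = 4) (hB : B.card = 4)
    (l : Fin 3 → ℝ) : ∃ (n : Fin 3 → ℝ) (c : ℝ), n ≠ 0 ∧ n ⬝ᵥ l = 0 ∧
      (A.filter fun i => c < n ⬝ᵥ P i).card ≤ 2 ∧ (A.filter fun i => n ⬝ᵥ P i < c).card ≤ 2 ∧
      (B.filter fun i => c < n ⬝ᵥ P i).card ≤ 2 ∧ (B.filter fun i => n ⬝ᵥ P i < c).card ≤ 2 := by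
  -- two independent normals
  obtain ⟨x, y, hx, hy, hxy⟩ : ∃ x y : Fin 3 → ℝ, x ⬝ᵥ l = 0 ∧ y ⬝ᵥ l = 0 ∧
      LinearIndependent ℝ ![x, y] := by
    let φ : (Fin 3 → ℝ) →ₗ[ℝ] ℝ :=
      { toFun := fun x => x ⬝ᵥ l
        map_add' := by intro p q; rw [add_dotProduct]
        map_smul' := by intro r p; rw [smul_dotProduct]; rfl }
    have hrk := LinearMap.finrank_range_add_finrank_ker φ
    rw [Module.finrank_fin_fun] at hrk
    have h1 : Module.finrank ℝ (LinearMap.range φ) ≤ 1 := by
      have := Submodule.finrank_le (LinearMap.range φ)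
      rwa [Module.finrank_self] at this
    have h2 : 1 < Module.finrank ℝ (LinearMap.ker φ) := by omega
    have : Nontrivial (LinearMap.ker φ) := Module.nontrivial_of_finrank_pos (R := ℝ) (by omega)
    obtain ⟨x, hx0⟩ := exists_ne (0 : LinearMap.ker φ)
    obtain ⟨y, hy⟩ := exists_linearIndependent_pair_of_one_lt_finrank h2 hx0
    refine ⟨x, y, x.2, y.2, ?_⟩
    rw [LinearIndependent.pair_iff] at hy ⊢
    intro s t hst
    apply hy s t
    ext1
    simpa using hst
  rw [LinearIndependent.pair_iff] at hxy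
  let n : ℝ → Fin 3 → ℝ := fun θ => Real.cos θ • x + Real.sin θ • y
  have hn0 : ∀ θ, n θ ≠ 0 := by
    intro θ h
    have := hxy _ _ h
    have h2 := Real.sin_sq_add_cos_sq θ
    rw [this.1, this.2] at h2
    norm_num at h2
  have hnl : ∀ θ, n θ ⬝ᵥ l = 0 := by
    intro θ
    simp only [n]
    rw [add_dotProduct, smul_dotProduct, smul_dotProduct, hx, hy]
    simp
  have hnc : ∀ i, Continuous fun θ => n θ ⬝ᵥ P i := by
    intro i
    simp only [n]
    have : (fun θ => (Real.cos θ • x + Real.sin θ • y) ⬝ᵥ P i) =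
        fun θ => Real.cos θ * (x ⬝ᵥ P i) + Real.sin θ * (y ⬝ᵥ P i) := by
      ext θ
      rw [add_dotProduct, smul_dotProduct, smul_dotProduct]
      simp
    rw [this]
    fun_prop
  have hnpi : ∀ i, n Real.pi ⬝ᵥ P i = -(n 0 ⬝ᵥ P i) := by
    intro i
    simp [n]
  have hne : ∀ X : Finset (Fin 8), X.card = 4 → X.Nonempty := by
    intro X hX
    rw [← Finset.card_pos]; omega
  let mx : ∀ X : Finset (Fin 8), X.card = 4 → ℝ → ℝ := fun X hX θ =>
    X.sup' (hne X hX) fun i => n θ ⬝ᵥ P i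
  let mn : ∀ X : Finset (Fin 8), X.card = 4 → ℝ → ℝ := fun X hX θ =>
    X.inf' (hne X hX) fun i => n θ ⬝ᵥ P i
  let md : ∀ X : Finset (Fin 8), X.card = 4 → ℝ → ℝ := fun X hX θ =>
    (∑ i ∈ X, n θ ⬝ᵥ P i - mx X hX θ - mn X hX θ) / 2
  have hmxc : ∀ X hX, Continuous (mx X hX) := by
    intro X hX
    exact Continuous.finset_sup'_apply (hne X hX) fun i _ => hnc i
  have hmnc : ∀ X hX, Continuous (mn X hX) := by
    intro X hX
    exact Continuous.finset_inf'_apply (hne X hX) fun i _ => hnc i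
  have hmdc : ∀ X hX, Continuous (md X hX) := by
    intro X hX
    have h1 : Continuous fun θ => ∑ i ∈ X, n θ ⬝ᵥ P i :=
      continuous_finsetSum _ fun i _ => hnc i
    exact ((h1.sub (hmxc X hX)).sub (hmnc X hX)).div_const 2
  have hmxpi : ∀ X hX, mx X hX Real.pi = -mn X hX 0 := by
    intro X hX
    apply le_antisymm
    · refine Finset.sup'_le _ _ fun i hi => ?_
      rw [hnpi]
      exact neg_le_neg (Finset.inf'_le _ hi)
    · obtain ⟨i, hi, h⟩ := Finset.exists_mem_eq_inf' (hne X hX) fun i => n 0 ⬝ᵥ P i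
      have : mn X hX 0 = n 0 ⬝ᵥ P i := h
      rw [this, ← hnpi]
      exact Finset.le_sup' (fun i => n Real.pi ⬝ᵥ P i) hi
  have hmnpi : ∀ X hX, mn X hX Real.pi = -mx X hX 0 := by
    intro X hX
    apply le_antisymm
    · obtain ⟨i, hi, h⟩ := Finset.exists_mem_eq_sup' (hne X hX) fun i => n 0 ⬝ᵥ P i
      have : mx X hX 0 = n 0 ⬝ᵥ P i := h
      rw [this, ← hnpi]
      exact Finset.inf'_le (fun i => n Real.pi ⬝ᵥ P i) hi
    · refine Finset.le_inf' _ _ fun i hi => ?_
      rw [hnpi]
      exact neg_le_neg (Finset.le_sup' (fun i => n 0 ⬝ᵥ P i) hi)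
  have hmdpi : ∀ X hX, md X hX Real.pi = -md X hX 0 := by
    intro X hX
    simp only [md]
    rw [hmxpi X hX, hmnpi X hX, Finset.sum_congr rfl fun i _ => hnpi i, Finset.sum_neg_distrib]
    ring
  obtain ⟨θ, hθ⟩ : ∃ θ, md A hA θ - md B hB θ = 0 := by
    have hcont : Continuous fun θ => md A hA θ - md B hB θ := (hmdc A hA).sub (hmdc B hB)
    have hpi : md A hA Real.pi - md B hB Real.pi = -(md A hA 0 - md B hB 0) := by
      rw [hmdpi A hA, hmdpi B hB]; ring
    rcases le_total 0 (md A hA 0 - md B hB 0) with h | h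
    · obtain ⟨θ, -, hθ⟩ := intermediate_value_Icc' Real.pi_pos.le hcont.continuousOn
        (show (0 : ℝ) ∈ Set.Icc (md A hA Real.pi - md B hB Real.pi) (md A hA 0 - md B hB 0) from
          ⟨by rw [hpi]; linarith, h⟩)
      exact ⟨θ, hθ⟩
    · obtain ⟨θ, -, hθ⟩ := intermediate_value_Icc Real.pi_pos.le hcont.continuousOn
        (show (0 : ℝ) ∈ Set.Icc (md A hA 0 - md B hB 0) (md A hA Real.pi - md B hB Real.pi) from
          ⟨h, by rw [hpi]; linarith⟩)
      exact ⟨θ, hθ⟩
  have hmax : ∀ X hX, (∃ i ∈ X, n θ ⬝ᵥ P i = mx X hX θ) ∧ (∀ i ∈ X, n θ ⬝ᵥ P i ≤ mx X hX θ) := by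
    intro X hX
    constructor
    · obtain ⟨i, hi, h⟩ := Finset.exists_mem_eq_sup' (hne X hX) fun i => n θ ⬝ᵥ P i
      exact ⟨i, hi, h.symm⟩
    · intro i hi
      exact Finset.le_sup' (fun i => n θ ⬝ᵥ P i) hi
  have hmin : ∀ X hX, (∃ i ∈ X, n θ ⬝ᵥ P i = mn X hX θ) ∧ (∀ i ∈ X, mn X hX θ ≤ n θ ⬝ᵥ P i) := by
    intro X hX
    constructor
    · obtain ⟨i, hi, h⟩ := Finset.exists_mem_eq_inf' (hne X hX) fun i => n θ ⬝ᵥ P i
      exact ⟨i, hi, h.symm⟩
    · intro i hi
      exact Finset.inf'_le (fun i => n θ ⬝ᵥ P i) hi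
  have h2md : ∀ X hX, 2 * md X hX θ = ∑ i ∈ X, n θ ⬝ᵥ P i - mx X hX θ - mn X hX θ := by
    intro X hX
    simp only [md]; ring
  have hAB : md A hA θ = md B hB θ := by linarith
  refine ⟨n θ, md A hA θ, hn0 θ, hnl θ, ?_, ?_, ?_, ?_⟩
  · exact mid_gt hA (hmax A hA).1 (hmax A hA).2 (hmin A hA).1 (hmin A hA).2 (h2md A hA)
  · exact mid_lt hA (hmax A hA).1 (hmax A hA).2 (hmin A hA).1 (hmin A hA).2 (h2md A hA)
  · rw [hAB]
    exact mid_gt hB (hmax B hB).1 (hmax B hB).2 (hmin B hB).1 (hmin B hB).2 (h2md B hB)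
  · rw [hAB]
    exact mid_lt hB (hmax B hB).1 (hmax B hB).2 (hmin B hB).1 (hmin B hB).2 (h2md B hB)

/-- Completing a weak halving to a strict one. -/
lemma complete {X : Finset (Fin 8)} {k : ℕ} (hX : X.card = 2 * k) {v : Fin 8 → ℝ} {c : ℝ}
    (h1 : (X.filter fun i => c < v i).card ≤ k) (h2 : (X.filter fun i => v i < c).card ≤ k) :
    ∃ T ⊆ X, T.card = k ∧ (∀ i ∈ X, c < v i → i ∈ T) ∧ (∀ i ∈ T, c ≤ v i) := by
  have hle : k ≤ (X.filter fun i => c ≤ v i).card := by
    have h := Finset.card_filter_add_card_filter_not (s := X) (fun i => c ≤ v i)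
    have h3 : X.filter (fun i => ¬ c ≤ v i) = X.filter fun i => v i < c := by
      ext i; simp
    rw [h3] at h
    omega
  obtain ⟨T, hT1, hT2, hT3⟩ := Finset.exists_subsuperset_card_eq
    (show (X.filter fun i => c < v i) ⊆ X.filter fun i => c ≤ v i from by
      intro i hi
      rw [Finset.mem_filter] at hi ⊢
      exact ⟨hi.1, hi.2.le⟩) h1 hle
  refine ⟨T, fun i hi => (Finset.mem_filter.1 (hT2 hi)).1, hT3, fun i hi hc => ?_, fun i hi => ?_⟩
  · exact hT1 (Finset.mem_filter.2 ⟨hi, hc⟩)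
  · exact (Finset.mem_filter.1 (hT2 hi)).2

/-- Key lemma: two given points of `A` are separated by a plane halving both `A` and `B`. -/
lemma key {P : Fin 8 → Fin 3 → ℝ} (hP : GP P) {A B : Finset (Fin 8)} (hA : A.card = 4)
    (hB : B.card = 4) (hAB : Disjoint A B) {a₁ a₂ : Fin 8} (h1 : a₁ ∈ A) (h2 : a₂ ∈ A)
    (h12 : a₁ ≠ a₂) : ∃ S : Finset (Fin 8), Cut P S ∧ (A ∩ S).card = 2 ∧ (B ∩ S).card = 2 ∧
      (a₁ ∈ S ↔ a₂ ∉ S) := by
  -- name the other two points
  obtain ⟨a₃, a₄, h34, hAeq, h13, h14, h23, h24⟩ : ∃ a₃ a₄ : Fin 8, a₃ ≠ a₄ ∧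
      A = {a₁, a₂, a₃, a₄} ∧ a₁ ≠ a₃ ∧ a₁ ≠ a₄ ∧ a₂ ≠ a₃ ∧ a₂ ≠ a₄ := by
    have hc : ((A.erase a₁).erase a₂).card = 2 := by
      rw [Finset.card_erase_of_mem (Finset.mem_erase.2 ⟨h12.symm, h2⟩),
        Finset.card_erase_of_mem h1, hA]
    obtain ⟨x, y, hxy, he⟩ := Finset.card_eq_two.1 hc
    have hx : x ∈ (A.erase a₁).erase a₂ := by rw [he]; simp
    have hy : y ∈ (A.erase a₁).erase a₂ := by rw [he]; simp
    simp only [Finset.mem_erase] at hx hy
    refine ⟨x, y, hxy, ?_, hx.2.1.symm, hy.2.1.symm, hx.1.symm, hy.1.symm⟩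
    rw [← Finset.insert_erase h1, ← Finset.insert_erase (Finset.mem_erase.2 ⟨h12.symm, h2⟩), he]
  obtain ⟨n, c, hn, hl, w1, w2, w3, w4⟩ := weak (P := P) hA hB (P a₃ - P a₁)
  have h3A : a₃ ∈ A := by rw [hAeq]; simp
  have h4A : a₄ ∈ A := by rw [hAeq]; simp
  have heq : n ⬝ᵥ P a₁ = n ⬝ᵥ P a₃ := by
    rw [dotProduct_sub] at hl; linarith
  -- the choice inside A
  obtain ⟨TA, hTA1, hTA2, hTA3, hTA4, hTA5⟩ : ∃ TA ⊆ A, TA.card = 2 ∧
      (∀ i ∈ A, c < n ⬝ᵥ P i → i ∈ TA) ∧ (∀ i ∈ TA, c ≤ n ⬝ᵥ P i) ∧ (a₁ ∈ TA ↔ a₂ ∉ TA) := by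
    rcases lt_trichotomy (n ⬝ᵥ P a₁) c with h | h | h
    · -- negative side
      have hneg : ({a₁, a₃} : Finset (Fin 8)) ⊆ A.filter fun i => n ⬝ᵥ P i < c := by
        intro i hi
        rw [Finset.mem_insert, Finset.mem_singleton] at hi
        rw [Finset.mem_filter]
        rcases hi with rfl | rfl
        · exact ⟨h1, h⟩
        · exact ⟨h3A, by rw [← heq]; exact h⟩
      have hE := Finset.eq_of_subset_of_card_le hneg (by rw [Finset.card_pair h13]; exact w2)
      have hge : ∀ i ∈ A, i ≠ a₁ → i ≠ a₃ → c ≤ n ⬝ᵥ P i := by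
        intro i hi hi1 hi3
        by_contra hcon
        push Not at hcon
        have : i ∈ ({a₁, a₃} : Finset (Fin 8)) := by
          rw [hE]; exact Finset.mem_filter.2 ⟨hi, hcon⟩
        simp only [Finset.mem_insert, Finset.mem_singleton] at this
        tauto
      refine ⟨{a₂, a₄}, ?_, Finset.card_pair h24, ?_, ?_, ?_⟩
      · intro i hi
        simp only [Finset.mem_insert, Finset.mem_singleton] at hi
        rcases hi with rfl | rfl
        · exact h2
        · exact h4A
      · intro i hi hc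
        rw [hAeq] at hi
        simp only [Finset.mem_insert, Finset.mem_singleton] at hi ⊢
        rcases hi with rfl | rfl | rfl | rfl
        · exact absurd hc (not_lt.2 h.le)
        · exact Or.inl rfl
        · exact absurd hc (not_lt.2 (by rw [← heq]; exact h.le))
        · exact Or.inr rfl
      · intro i hi
        simp only [Finset.mem_insert, Finset.mem_singleton] at hi
        rcases hi with rfl | rfl
        · exact hge _ h2 h12.symm h23
        · exact hge _ h4A h14.symm h34.symm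
      · simp [h12, h14]
    · -- both on the plane
      by_cases s2 : c ≤ n ⬝ᵥ P a₂ <;> by_cases s4 : c ≤ n ⬝ᵥ P a₄
      · refine ⟨{a₂, a₄}, ?_, Finset.card_pair h24, ?_, ?_, ?_⟩
        · intro i hi
          simp only [Finset.mem_insert, Finset.mem_singleton] at hi
          rcases hi with rfl | rfl
          · exact h2
          · exact h4A
        · intro i hi hc
          rw [hAeq] at hi
          simp only [Finset.mem_insert, Finset.mem_singleton] at hi ⊢
          rcases hi with rfl | rfl | rfl | rfl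
          · exact absurd hc (by rw [h]; exact lt_irrefl _)
          · exact Or.inl rfl
          · exact absurd hc (by rw [← heq, h]; exact lt_irrefl _)
          · exact Or.inr rfl
        · intro i hi
          simp only [Finset.mem_insert, Finset.mem_singleton] at hi
          rcases hi with rfl | rfl
          · exact s2
          · exact s4
        · simp [h12, h14]
      · refine ⟨{a₂, a₃}, ?_, Finset.card_pair h23, ?_, ?_, ?_⟩
        · intro i hi
          simp only [Finset.mem_insert, Finset.mem_singleton] at hi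
          rcases hi with rfl | rfl
          · exact h2
          · exact h3A
        · intro i hi hc
          rw [hAeq] at hi
          simp only [Finset.mem_insert, Finset.mem_singleton] at hi ⊢
          rcases hi with rfl | rfl | rfl | rfl
          · exact absurd hc (by rw [h]; exact lt_irrefl _)
          · exact Or.inl rfl
          · exact Or.inr rfl
          · exact absurd hc.le s4
        · intro i hi
          simp only [Finset.mem_insert, Finset.mem_singleton] at hi
          rcases hi with rfl | rfl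
          · exact s2
          · rw [← heq, h]
        · simp [h12, h13]
      · refine ⟨{a₁, a₄}, ?_, Finset.card_pair h14, ?_, ?_, ?_⟩
        · intro i hi
          simp only [Finset.mem_insert, Finset.mem_singleton] at hi
          rcases hi with rfl | rfl
          · exact h1
          · exact h4A
        · intro i hi hc
          rw [hAeq] at hi
          simp only [Finset.mem_insert, Finset.mem_singleton] at hi ⊢
          rcases hi with rfl | rfl | rfl | rfl
          · exact Or.inl rfl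
          · exact absurd hc.le s2
          · exact absurd hc (by rw [← heq, h]; exact lt_irrefl _)
          · exact Or.inr rfl
        · intro i hi
          simp only [Finset.mem_insert, Finset.mem_singleton] at hi
          rcases hi with rfl | rfl
          · rw [h]
          · exact s4
        · simp [h12.symm, h24]
      · refine ⟨{a₁, a₃}, ?_, Finset.card_pair h13, ?_, ?_, ?_⟩
        · intro i hi
          simp only [Finset.mem_insert, Finset.mem_singleton] at hi
          rcases hi with rfl | rfl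
          · exact h1
          · exact h3A
        · intro i hi hc
          rw [hAeq] at hi
          simp only [Finset.mem_insert, Finset.mem_singleton] at hi ⊢
          rcases hi with rfl | rfl | rfl | rfl
          · exact Or.inl rfl
          · exact absurd hc.le s2
          · exact Or.inr rfl
          · exact absurd hc.le s4
        · intro i hi
          simp only [Finset.mem_insert, Finset.mem_singleton] at hi
          rcases hi with rfl | rfl
          · rw [h]
          · rw [← heq, h]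
        · simp [h12.symm, h23]
    · -- positive side
      have hpos : ({a₁, a₃} : Finset (Fin 8)) ⊆ A.filter fun i => c < n ⬝ᵥ P i := by
        intro i hi
        rw [Finset.mem_insert, Finset.mem_singleton] at hi
        rw [Finset.mem_filter]
        rcases hi with rfl | rfl
        · exact ⟨h1, h⟩
        · exact ⟨h3A, by rw [← heq]; exact h⟩
      have hE := Finset.eq_of_subset_of_card_le hpos (by rw [Finset.card_pair h13]; exact w1)
      refine ⟨{a₁, a₃}, ?_, Finset.card_pair h13, ?_, ?_, ?_⟩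
      · intro i hi
        simp only [Finset.mem_insert, Finset.mem_singleton] at hi
        rcases hi with rfl | rfl
        · exact h1
        · exact h3A
      · intro i hi hc
        rw [hE]
        exact Finset.mem_filter.2 ⟨hi, hc⟩
      · intro i hi
        simp only [Finset.mem_insert, Finset.mem_singleton] at hi
        rcases hi with rfl | rfl
        · exact h.le
        · rw [← heq]; exact h.le
      · simp [h12.symm, h23]
  obtain ⟨TB, hTB1, hTB2, hTB3, hTB4⟩ := complete (X := B) (k := 2) (by rw [hB])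
    (v := fun i => n ⬝ᵥ P i) w3 w4
  have hcover : ∀ i : Fin 8, i ∈ A ∨ i ∈ B := by
    have : A ∪ B = univ := by
      rw [← Finset.card_eq_iff_eq_univ, Finset.card_union_of_disjoint hAB, hA, hB]
      simp
    intro i
    rw [← Finset.mem_union, this]
    exact mem_univ i
  refine ⟨TA ∪ TB, perturb (c := c) hP hn ?_ ?_, ?_, ?_, ?_⟩
  · intro i hi
    rcases hcover i with h | h
    · exact Finset.mem_union_left _ (hTA3 i h hi)
    · exact Finset.mem_union_right _ (hTB3 i h hi)
  · intro i hi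
    rcases Finset.mem_union.1 hi with h | h
    · exact hTA4 i h
    · exact hTB4 i h
  · have : A ∩ (TA ∪ TB) = TA := by
      ext i
      rw [Finset.mem_inter, Finset.mem_union]
      constructor
      · rintro ⟨hi, h | h⟩
        · exact h
        · exact absurd (hTB1 h) (Finset.disjoint_left.1 hAB hi)
      · intro h
        exact ⟨hTA1 h, Or.inl h⟩
    rw [this, hTA2]
  · have : B ∩ (TA ∪ TB) = TB := by
      ext i
      rw [Finset.mem_inter, Finset.mem_union]
      constructor
      · rintro ⟨hi, h | h⟩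
        · exact absurd hi (Finset.disjoint_left.1 hAB (hTA1 h))
        · exact h
      · intro h
        exact ⟨hTB1 h, Or.inr h⟩
    rw [this, hTB2]
  · have g : ∀ i ∈ A, (i ∈ TA ∪ TB ↔ i ∈ TA) := by
      intro i hi
      rw [Finset.mem_union]
      exact ⟨fun h => h.resolve_right fun h' => Finset.disjoint_left.1 hAB hi (hTB1 h'),
        fun h => Or.inl h⟩
    rw [g a₁ h1, g a₂ h2]
    exact hTA5

/-- Two halvings of a four-element set which are not transversal agree or are opposite. -/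
lemma not_transversal {A S T : Finset (Fin 8)} (hA : A.card = 4) (hS : (A ∩ S).card = 2)
    (hT : (A ∩ T).card = 2) (h : (A ∩ S ∩ T).card ≠ 1) :
    (∀ a ∈ A, (a ∈ S ↔ a ∈ T)) ∨ (∀ a ∈ A, (a ∈ S ↔ a ∉ T)) := by
  have hle : (A ∩ S ∩ T).card ≤ 2 := by
    rw [← hS]; exact Finset.card_le_card Finset.inter_subset_left
  have h' : A ∩ S ∩ T ⊆ A ∩ T := by
    intro i hi
    simp only [Finset.mem_inter] at hi ⊢
    exact ⟨hi.1.1, hi.2⟩
  have hcases : (A ∩ S ∩ T).card = 2 ∨ (A ∩ S ∩ T).card = 0 := by omega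
  rcases hcases with h2 | h0
  · left
    have e1 := Finset.eq_of_subset_of_card_le (s := A ∩ S ∩ T) (t := A ∩ S)
      Finset.inter_subset_left (by rw [hS, h2])
    have e2 := Finset.eq_of_subset_of_card_le h' (by rw [hT, h2])
    have e3 : A ∩ S = A ∩ T := by rw [← e1, e2]
    intro a ha
    have : a ∈ A ∩ S ↔ a ∈ A ∩ T := by rw [e3]
    simp only [Finset.mem_inter, ha, true_and] at this
    exact this
  · right
    have h0' := Finset.card_eq_zero.1 h0
    have hdisj : Disjoint (A ∩ S) (A ∩ T) := by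
      rw [Finset.disjoint_left]
      intro i hi hi'
      simp only [Finset.mem_inter] at hi hi'
      have : i ∈ A ∩ S ∩ T := by simp only [Finset.mem_inter]; exact ⟨hi, hi'.2⟩
      rw [h0'] at this
      simp at this
    have hun : (A ∩ S) ∪ (A ∩ T) = A := by
      refine Finset.eq_of_subset_of_card_le ?_ ?_
      · exact Finset.union_subset Finset.inter_subset_left Finset.inter_subset_left
      · rw [Finset.card_union_of_disjoint hdisj, hS, hT, hA]
    intro a ha
    constructor
    · intro haS haT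
      exact Finset.disjoint_left.1 hdisj (Finset.mem_inter.2 ⟨ha, haS⟩)
        (Finset.mem_inter.2 ⟨ha, haT⟩)
    · intro haT
      rw [← hun] at ha
      rcases Finset.mem_union.1 ha with h | h
      · exact (Finset.mem_inter.1 h).2
      · exact absurd (Finset.mem_inter.1 h).2 haT

/-- For a halving `S` there is a transversal one on `A`. -/
lemma exists_transversal {P : Fin 8 → Fin 3 → ℝ} (hP : GP P) {A B : Finset (Fin 8)}
    (hA : A.card = 4) (hB : B.card = 4) (hAB : Disjoint A B) {S : Finset (Fin 8)}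
    (hS : (A ∩ S).card = 2) : ∃ T : Finset (Fin 8), Cut P T ∧ (A ∩ T).card = 2 ∧
      (B ∩ T).card = 2 ∧ (A ∩ S ∩ T).card = 1 := by
  obtain ⟨x, y, hxy, he⟩ := Finset.card_eq_two.1 hS
  have hx : x ∈ A ∩ S := by rw [he]; simp
  have hy : y ∈ A ∩ S := by rw [he]; simp
  rw [Finset.mem_inter] at hx hy
  obtain ⟨T, hT1, hT2, hT3, hT4⟩ := key hP hA hB hAB hx.1 hy.1 hxy
  refine ⟨T, hT1, hT2, hT3, ?_⟩
  by_contra hcon
  rcases not_transversal hA hS hT2 hcon with h | h
  · have := h x hx.1
    have := h y hy.1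
    tauto
  · have := h x hx.1
    have := h y hy.1
    tauto

/-- Symmetry and transitivity: if `S, T` and `S, R` are not transversal, neither are `T, R`. -/
lemma trans_not {A S T R : Finset (Fin 8)} (hA : A.card = 4) (hS : (A ∩ S).card = 2)
    (hT : (A ∩ T).card = 2) (hR : (A ∩ R).card = 2) (h1 : (A ∩ S ∩ T).card ≠ 1)
    (h2 : (A ∩ T ∩ R).card ≠ 1) : (A ∩ S ∩ R).card ≠ 1 := by
  intro h3
  have key2 : (∀ a ∈ A, (a ∈ S ↔ a ∈ R)) ∨ (∀ a ∈ A, (a ∈ S ↔ a ∉ R)) := by
    rcases not_transversal hA hS hT h1 with g1 | g1 <;>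
      rcases not_transversal hA hT hR h2 with g2 | g2
    · left; intro a ha; have := g1 a ha; have := g2 a ha; tauto
    · right; intro a ha; have := g1 a ha; have := g2 a ha; tauto
    · right; intro a ha; have := g1 a ha; have := g2 a ha; tauto
    · left; intro a ha; have := g1 a ha; have := g2 a ha; tauto
  rcases key2 with g | g
  · have : A ∩ S ∩ R = A ∩ S := by
      ext a
      simp only [Finset.mem_inter]
      constructor
      · exact fun h => h.1
      · exact fun h => ⟨h, (g a h.1).1 h.2⟩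
    rw [this] at h3
    omega
  · have : A ∩ S ∩ R = ∅ := by
      ext a
      simp only [Finset.mem_inter, Finset.notMem_empty, iff_false]
      rintro ⟨⟨h, h'⟩, h''⟩
      exact (g a h).1 h' h''
    rw [this] at h3
    simp at h3

lemma family {P : Fin 8 → Fin 3 → ℝ} (hP : GP P) : ∃ S₁ S₂ S₃ : Finset (Fin 8),
    Cut P S₁ ∧ Cut P S₂ ∧ Cut P S₃ ∧ S₁.card = 4 ∧ (S₁ᶜ).card = 4 ∧ (S₁ ∩ S₂).card = 2 ∧
    (S₁ ∩ S₃).card = 2 ∧ (S₁ᶜ ∩ S₂).card = 2 ∧ (S₁ᶜ ∩ S₃).card = 2 ∧
    (S₁ ∩ S₂ ∩ S₃).card = 1 ∧ (S₁ᶜ ∩ S₂ ∩ S₃).card = 1 := by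
  classical
  -- the first plane
  obtain ⟨A, hcut, hA⟩ : ∃ A : Finset (Fin 8), Cut P A ∧ A.card = 4 := by
    let v : Fin 8 → ℝ := fun i => (Pi.single 0 1 : Fin 3 → ℝ) ⬝ᵥ P i
    have hn : (Pi.single 0 1 : Fin 3 → ℝ) ≠ 0 := by
      intro h
      have := congrFun h 0
      simp at this
    -- the median
    let G : Finset (Fin 8) := univ.filter fun i => 4 ≤ (univ.filter fun j => v j ≤ v i).card
    have hG : G.Nonempty := by
      obtain ⟨i, -, hi⟩ := Finset.exists_max_image (univ : Finset (Fin 8)) v ⟨0, mem_univ _⟩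
      refine ⟨i, ?_⟩
      simp only [G, mem_filter, mem_univ, true_and]
      have : (univ.filter fun j => v j ≤ v i) = univ := by
        ext j; simp [hi j (mem_univ j)]
      rw [this]; simp
    obtain ⟨i₀, hi₀, hmin⟩ := Finset.exists_min_image G v hG
    have hi4 : 4 ≤ (univ.filter fun j => v j ≤ v i₀).card := (mem_filter.1 hi₀).2
    have hgt : (univ.filter fun j => v i₀ < v j).card ≤ 4 := by
      have h := Finset.card_filter_add_card_filter_not (s := (univ : Finset (Fin 8)))
        (fun j => v j ≤ v i₀)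
      have h3 : (univ.filter fun j => ¬ v j ≤ v i₀) = univ.filter fun j => v i₀ < v j := by
        ext j; simp
      rw [h3] at h
      simp only [card_univ, Fintype.card_fin] at h
      omega
    have hlt : (univ.filter fun j => v j < v i₀).card ≤ 4 := by
      by_contra hcon
      push Not at hcon
      have hne : (univ.filter fun j => v j < v i₀).Nonempty := by
        rw [← card_pos]; omega
      obtain ⟨k, hk, hkmax⟩ := Finset.exists_max_image _ v hne
      have hk' : v k < v i₀ := (mem_filter.1 hk).2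
      have hkG : k ∈ G := by
        simp only [G, mem_filter, mem_univ, true_and]
        have hsub : (univ.filter fun j => v j < v i₀) ⊆ univ.filter fun j => v j ≤ v k := by
          intro j hj
          rw [mem_filter]
          exact ⟨mem_univ j, hkmax j hj⟩
        have := card_le_card hsub
        omega
      have := hmin k hkG
      linarith
    obtain ⟨T, -, hT2, hT3, hT4⟩ := complete (X := univ) (k := 4) (v := v) (c := v i₀)
      (by simp) hgt hlt
    exact ⟨T, perturb hP hn (fun i hi => hT3 i (mem_univ i) hi) hT4, hT2⟩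
  have hB : (Aᶜ).card = 4 := by
    rw [card_compl, hA]; simp
  have hAB : Disjoint A Aᶜ := disjoint_compl_right
  -- some halving
  obtain ⟨a, ha, b, hb, h⟩ := Finset.one_lt_card.1 (by omega : 1 < A.card)
  obtain ⟨S, hS1, hS2, hS3, -⟩ := key hP hA hB hAB ha hb h
  obtain ⟨T, hT1, hT2, hT3, hT4⟩ := exists_transversal hP hA hB hAB hS2
  by_cases hB1 : (Aᶜ ∩ S ∩ T).card = 1
  · exact ⟨A, S, T, hcut, hS1, hT1, hA, hB, hS2, hT2, hS3, hT3, hT4, hB1⟩
  obtain ⟨R, hR1, hR2, hR3, hR4⟩ := exists_transversal hP hB hA hAB.symm hS3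
  by_cases hA1 : (A ∩ S ∩ R).card = 1
  · exact ⟨A, S, R, hcut, hS1, hR1, hA, hB, hS2, hR3, hS3, hR2, hA1, hR4⟩
  have comm3 : ∀ X Y Z : Finset (Fin 8), X ∩ Y ∩ Z = X ∩ Z ∩ Y := by
    intro X Y Z
    rw [Finset.inter_assoc, Finset.inter_comm Y Z, ← Finset.inter_assoc]
  refine ⟨A, T, R, hcut, hT1, hR1, hA, hB, hT2, hR3, hT3, hR2, ?_, ?_⟩
  · by_contra hcon
    -- S,R not transversal and T,R not transversal imply S,T not transversal
    have hcon' : (A ∩ R ∩ T).card ≠ 1 := by rw [comm3]; exact hcon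
    exact trans_not hA hS2 hR3 hT2 hA1 hcon' hT4
  · by_contra hcon
    exact trans_not hB hS3 hT3 hR2 hB1 hcon hR4

/-- Cells of a transversal pair of halvings. -/
lemma cells {A S T : Finset (Fin 8)} (hA : A.card = 4) (hS : (A ∩ S).card = 2)
    (hT : (A ∩ T).card = 2) (h : (A ∩ S ∩ T).card = 1) (b₂ b₃ : Bool) :
    (A.filter fun i => (i ∈ S ↔ b₂ = true) ∧ (i ∈ T ↔ b₃ = true)).card = 1 := by
  have e1 : (A ∩ S ∩ T).card + ((A ∩ S) \ T).card = 2 := by
    rw [← hS, Finset.card_inter_add_card_sdiff]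
  have e2 : (A ∩ T ∩ S).card + ((A ∩ T) \ S).card = 2 := by
    rw [← hT, Finset.card_inter_add_card_sdiff]
  have e3 : (A ∩ T).card + (A \ T).card = 4 := by
    rw [← hA, Finset.card_inter_add_card_sdiff]
  have e4 : ((A \ T) ∩ S).card + ((A \ T) \ S).card = (A \ T).card :=
    Finset.card_inter_add_card_sdiff _ _
  have c1 : A ∩ T ∩ S = A ∩ S ∩ T := by ext; simp only [Finset.mem_inter]; tauto
  have c2 : (A \ T) ∩ S = (A ∩ S) \ T := by
    ext; simp only [Finset.mem_inter, Finset.mem_sdiff]; tauto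
  rw [c1] at e2
  rw [c2] at e4
  rcases b₂ with _ | _ <;> rcases b₃ with _ | _
  · have : (A.filter fun i => (i ∈ S ↔ false = true) ∧ (i ∈ T ↔ false = true)) = (A \ T) \ S := by
      ext i; simp only [Finset.mem_filter, Finset.mem_sdiff]; simp; tauto
    rw [this]; omega
  · have : (A.filter fun i => (i ∈ S ↔ false = true) ∧ (i ∈ T ↔ true = true)) = (A ∩ T) \ S := by
      ext i; simp only [Finset.mem_filter, Finset.mem_sdiff, Finset.mem_inter]; simp; tauto
    rw [this]; omega
  · have : (A.filter fun i => (i ∈ S ↔ true = true) ∧ (i ∈ T ↔ false = true)) = (A ∩ S) \ T := by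
      ext i; simp only [Finset.mem_filter, Finset.mem_sdiff, Finset.mem_inter]; simp; tauto
    rw [this]; omega
  · have : (A.filter fun i => (i ∈ S ↔ true = true) ∧ (i ∈ T ↔ true = true)) = A ∩ S ∩ T := by
      ext i; simp only [Finset.mem_filter, Finset.mem_inter]; simp; tauto
    rw [this]; omega

/-- The theorem. -/
theorem result (P : Finset (Fin 3 → ℝ)) (hcard : P.card = 8)
    (hgen : ∀ (n : Fin 3 → ℝ) (c : ℝ), n ≠ 0 → (P.filter fun x => n ⬝ᵥ x = c).card ≤ 3) :
    ∃ (n : Fin 3 → Fin 3 → ℝ) (c : Fin 3 → ℝ), (∀ j, n j ≠ 0) ∧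
      (∀ x ∈ P, ∀ j, n j ⬝ᵥ x ≠ c j) ∧
      ∀ s : Fin 3 → Bool, ∃! x, x ∈ P ∧ ∀ j, (c j < n j ⬝ᵥ x ↔ s j = true) := by
  classical
  let e : Fin 8 ≃ P := (Fintype.equivFinOfCardEq (by simpa using hcard)).symm
  let Q : Fin 8 → Fin 3 → ℝ := fun i => e i
  have hQinj : Function.Injective Q := fun i j h => e.injective (Subtype.ext h)
  have hQmem : ∀ i, Q i ∈ P := fun i => (e i).2
  have hQsurj : ∀ x ∈ P, ∃ i, Q i = x := fun x hx => ⟨e.symm ⟨x, hx⟩, by simp [Q]⟩
  have hGP : GP Q := by
    intro n c hn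
    have h := hgen n c hn
    refine le_trans ?_ h
    refine Finset.card_le_card_of_injOn Q ?_ (hQinj.injOn)
    intro i hi
    have hi' : n ⬝ᵥ Q i = c := by simpa using hi
    simp [hQmem i, hi']
  obtain ⟨S₁, S₂, S₃, ⟨n₁, c₁, hn₁, h₁⟩, ⟨n₂, c₂, hn₂, h₂⟩, ⟨n₃, c₃, hn₃, h₃⟩, hc1, hc2, hc3, hc4,
    hc5, hc6, hc7, hc8⟩ := family hGP
  refine ⟨![n₁, n₂, n₃], ![c₁, c₂, c₃], ?_, ?_, ?_⟩
  · intro j
    fin_cases j
    · exact hn₁
    · exact hn₂
    · exact hn₃
  · intro x hx j
    obtain ⟨i, rfl⟩ := hQsurj x hx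
    have aux : ∀ (n : Fin 3 → ℝ) (c : ℝ) (S : Finset (Fin 8)),
        (∀ i, (i ∈ S → c < n ⬝ᵥ Q i) ∧ (i ∉ S → n ⬝ᵥ Q i < c)) → n ⬝ᵥ Q i ≠ c := by
      intro n c S h
      by_cases hi : i ∈ S
      · exact ((h i).1 hi).ne'
      · exact ((h i).2 hi).ne
    fin_cases j
    · exact aux _ _ _ h₁
    · exact aux _ _ _ h₂
    · exact aux _ _ _ h₃
  · intro s
    have aux : ∀ (n : Fin 3 → ℝ) (c : ℝ) (S : Finset (Fin 8)),
        (∀ i, (i ∈ S → c < n ⬝ᵥ Q i) ∧ (i ∉ S → n ⬝ᵥ Q i < c)) →
        ∀ i, (c < n ⬝ᵥ Q i ↔ i ∈ S) := by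
      intro n c S h i
      by_cases hi : i ∈ S
      · exact ⟨fun _ => hi, fun _ => (h i).1 hi⟩
      · exact ⟨fun hh => absurd ((h i).2 hi) (not_lt.2 hh.le), fun hh => absurd hh hi⟩
    have hcell : ∃! i : Fin 8, (i ∈ S₁ ↔ s 0 = true) ∧ (i ∈ S₂ ↔ s 1 = true) ∧
        (i ∈ S₃ ↔ s 2 = true) := by
      rcases hs : s 0 with _ | _
      · have h := cells hc2 hc5 hc6 hc8 (s 1) (s 2)
        obtain ⟨i, hi⟩ := Finset.card_eq_one.1 h
        have hmem : ∀ k, k ∈ (S₁ᶜ.filter fun i => (i ∈ S₂ ↔ s 1 = true) ∧ (i ∈ S₃ ↔ s 2 = true)) ↔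
            k = i := by
          intro k; rw [hi, Finset.mem_singleton]
        have hi1 := (hmem i).2 rfl
        rw [Finset.mem_filter, Finset.mem_compl] at hi1
        refine ⟨i, ⟨by simp [hi1.1], hi1.2⟩, ?_⟩
        rintro k ⟨k1, k2⟩
        apply (hmem k).1
        rw [Finset.mem_filter, Finset.mem_compl]
        exact ⟨by simpa using k1, k2⟩
      · have h := cells hc1 hc3 hc4 hc7 (s 1) (s 2)
        obtain ⟨i, hi⟩ := Finset.card_eq_one.1 h
        have hmem : ∀ k, k ∈ (S₁.filter fun i => (i ∈ S₂ ↔ s 1 = true) ∧ (i ∈ S₃ ↔ s 2 = true)) ↔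
            k = i := by
          intro k; rw [hi, Finset.mem_singleton]
        have hi1 := (hmem i).2 rfl
        rw [Finset.mem_filter] at hi1
        refine ⟨i, ⟨by simp [hi1.1], hi1.2⟩, ?_⟩
        rintro k ⟨k1, k2⟩
        apply (hmem k).1
        rw [Finset.mem_filter]
        exact ⟨by simpa using k1, k2⟩
    have htrans : ∀ i, (∀ j : Fin 3, ((![c₁, c₂, c₃] : Fin 3 → ℝ) j <
        (![n₁, n₂, n₃] : Fin 3 → Fin 3 → ℝ) j ⬝ᵥ Q i ↔ s j = true)) ↔
        ((i ∈ S₁ ↔ s 0 = true) ∧ (i ∈ S₂ ↔ s 1 = true) ∧ (i ∈ S₃ ↔ s 2 = true)) := by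
      intro i
      rw [Fin.forall_fin_succ, Fin.forall_fin_succ, Fin.forall_fin_one]
      have a1 := aux _ _ _ h₁ i
      have a2 := aux _ _ _ h₂ i
      have a3 := aux _ _ _ h₃ i
      simp only [Matrix.cons_val_zero, Matrix.cons_val_succ]
      rw [a1, a2, a3]
      rfl
    obtain ⟨i, hi, huniq⟩ := hcell
    refine ⟨Q i, ⟨hQmem i, (htrans i).2 hi⟩, ?_⟩
    rintro y ⟨hy, hy2⟩
    obtain ⟨k, rfl⟩ := hQsurj y hy
    rw [huniq k ((htrans k).1 hy2)]

end Pool.Agent.Results.MP_a0a64f_co.ThreePlanes
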